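import Pool.Agent.helper94.AP.SpecB

/-!
# AP (MP_16912e_nt), row BIL: cancellation in the bilinear sum
-/

set_option autoImplicit false

namespace Pool.Agent.AP

open Finset Pool.Agent.helper3.FT

theorem BIL_split (w e₀ m a b Z₁ Z₂ V₁ V₂ Δ : ℕ) (hΔ : 1 ≤ Δ) :
    bs w e₀ m a b Z₁ Z₂ V₁ V₂ (Icc 1 V₂) =
      bs w e₀ m a b Z₁ Z₂ V₁ V₂ (Icc 1 Δ) + bs w e₀ m a b Z₁ Z₂ V₁ V₂ (Ioc Δ V₂) := by
  have hunion : bs w e₀ m a b Z₁ Z₂ V₁ V₂ (Icc 1 (max Δ V₂)) =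
      bs w e₀ m a b Z₁ Z₂ V₁ V₂ (Icc 1 Δ) + bs w e₀ m a b Z₁ Z₂ V₁ V₂ (Ioc Δ V₂) := by
    have h1 : Icc 1 (max Δ V₂) = Icc 1 Δ ∪ Ioc Δ V₂ := by
      ext x
      simp only [mem_union, mem_Icc, mem_Ioc]
      omega
    have h2 : Disjoint (Icc 1 Δ) (Ioc Δ V₂) := by
      rw [Finset.disjoint_left]
      intro x hx hx'
      rw [mem_Icc] at hx
      rw [mem_Ioc] at hx'
      omega
    unfold bs
    rw [h1, Finset.filter_union, Finset.sum_union (Finset.disjoint_filter_filter h2)]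
  rw [← hunion]
  unfold bs
  apply Finset.sum_subset
  · intro x hx
    rw [mem_filter, mem_Icc] at hx ⊢
    exact ⟨⟨hx.1.1, hx.1.2.trans (le_max_right _ _)⟩, hx.2⟩
  · intro x hx hx'
    rw [mem_filter, mem_Icc] at hx hx'
    have h3 : V₂ < x := by
      by_contra hcon
      exact hx' ⟨⟨hx.1.1, by omega⟩, hx.2⟩
    have h4 : V₂ / x = 0 := Nat.div_eq_of_lt h3
    rw [h4]
    simp

theorem BIL_up {x N t : ℝ} (hx : 0 ≤ x) (ht : 0 < t) (h : x ^ (1 / t) ≤ N) : x ≤ N ^ t := by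
  have h1 : (x ^ (1 / t)) ^ t = x := by
    rw [← Real.rpow_mul hx, one_div, inv_mul_cancel₀ ht.ne', Real.rpow_one]
  calc x = (x ^ (1 / t)) ^ t := h1.symm
    _ ≤ N ^ t := Real.rpow_le_rpow (Real.rpow_nonneg hx _) h ht.le

theorem BIL_sqrtm {N c : ℝ} {m : ℕ} (hN : 1 ≤ N) (hm : (m : ℝ) ≤ N ^ c) : √(m : ℝ) ≤ N ^ (c / 2) := by
  rw [Real.sqrt_le_left (Real.rpow_nonneg (by linarith) _), ← Real.rpow_natCast, ← Real.rpow_mul (by linarith)]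
  have h1 : c / 2 * ((2 : ℕ) : ℝ) = c := by
    push_cast
    ring
  rw [h1]
  exact hm

theorem BIL_D {Z : ℝ} (hZ : 1 ≤ Z) : Z ^ (3 / 2 : ℝ) ≤ (⌈Z ^ (3 / 2 : ℝ)⌉₊ : ℝ) ∧
    (⌈Z ^ (3 / 2 : ℝ)⌉₊ : ℝ) ≤ 2 * Z ^ (3 / 2 : ℝ) ∧ 1 ≤ ⌈Z ^ (3 / 2 : ℝ)⌉₊ := by
  have h1 : 1 ≤ Z ^ (3 / 2 : ℝ) := Real.one_le_rpow hZ (by norm_num)
  refine ⟨Nat.le_ceil _, ?_, ?_⟩
  · have h2 := Nat.ceil_lt_add_one (show 0 ≤ Z ^ (3 / 2 : ℝ) by linarith)
    linarith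
  · exact Nat.one_le_ceil_iff.mpr (by linarith)

theorem BIL_A {N Z V η : ℝ} (hη : 0 < η) (hN : 3 ≤ N) (hZ1 : N ^ η ≤ Z) (hZ2 : Z ≤ N) (hV1 : N ^ η ≤ V) (hV2 : V ≤ N)
    {A : ℝ} (hA : A ≤ 2 * V * √((⌈Z ^ (3 / 2 : ℝ)⌉₊ : ℕ) : ℝ) * (1 + Real.log V) *
      (1 + Real.log ((⌈Z ^ (3 / 2 : ℝ)⌉₊ : ℕ) : ℝ))) :
    A ≤ 32 * (Z * V) * (N ^ (-(η / 4)) * Real.log N ^ 2) := by
  have hN1 : (1 : ℝ) ≤ N := by linarith
  have hNη : 1 ≤ N ^ η := Real.one_le_rpow hN1 hη.le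
  have hZ : 1 ≤ Z := hNη.trans hZ1
  have hV : 1 ≤ V := hNη.trans hV1
  have hZ0 : 0 < Z := by linarith
  have hV0 : 0 < V := by linarith
  obtain ⟨hD1, hD2, hD3⟩ := BIL_D hZ
  set D : ℝ := ((⌈Z ^ (3 / 2 : ℝ)⌉₊ : ℕ) : ℝ) with hD
  have hD0 : 0 < D := lt_of_lt_of_le (Real.rpow_pos_of_pos hZ0 _) hD1
  have hL : 1 ≤ Real.log N := by
    rw [Real.le_log_iff_exp_le (by linarith)]
    have := Real.exp_one_lt_d9
    linarith
  have hlV : 1 + Real.log V ≤ 2 * Real.log N := by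
    have := Real.log_le_log hV0 hV2
    linarith
  have hlV0 : 0 ≤ 1 + Real.log V := by
    have := Real.log_nonneg hV
    linarith
  have hlD : 1 + Real.log D ≤ 4 * Real.log N := by
    have h1 : Real.log D ≤ Real.log (2 * Z ^ (3 / 2 : ℝ)) := Real.log_le_log hD0 hD2
    rw [Real.log_mul (by norm_num) (Real.rpow_pos_of_pos hZ0 _).ne', Real.log_rpow hZ0] at h1
    have h2 := Real.log_le_log hZ0 hZ2
    have h3 := Real.log_two_lt_d9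
    linarith
  have hsD : √D ≤ 2 * Z ^ (3 / 4 : ℝ) := by
    rw [Real.sqrt_le_left (by positivity), mul_pow, ← Real.rpow_natCast (Z ^ (3 / 4 : ℝ)), ← Real.rpow_mul hZ0.le]
    have h1 : (3 / 4 : ℝ) * ((2 : ℕ) : ℝ) = 3 / 2 := by
      push_cast
      norm_num
    rw [h1]
    have h2 : 0 ≤ Z ^ (3 / 2 : ℝ) := Real.rpow_nonneg hZ0.le _
    linarith
  have hZq : Z ^ (3 / 4 : ℝ) ≤ Z * N ^ (-(η / 4)) := by
    have h1 : Z ^ (3 / 4 : ℝ) = Z * Z ^ (-(1 / 4) : ℝ) := by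
      nth_rewrite 2 [← Real.rpow_one Z]
      rw [← Real.rpow_add hZ0]
      norm_num
    have h2 : Z ^ (-(1 / 4) : ℝ) ≤ N ^ (-(η / 4)) := by
      have h3 : (N ^ η) ^ (-(1 / 4) : ℝ) = N ^ (-(η / 4)) := by
        rw [← Real.rpow_mul (by linarith)]
        congr 1
        ring
      rw [← h3]
      exact Real.rpow_le_rpow_of_nonpos (Real.rpow_pos_of_pos (by linarith) _) hZ1 (by norm_num)
    rw [h1]
    exact mul_le_mul_of_nonneg_left h2 hZ0.le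
  refine hA.trans ?_
  have e1 : 2 * V * √D ≤ 2 * V * (2 * (Z * N ^ (-(η / 4)))) := by
    apply mul_le_mul_of_nonneg_left _ (by positivity)
    linarith
  have e0 : 0 ≤ N ^ (-(η / 4)) := Real.rpow_nonneg (by linarith) _
  have e2 : 2 * V * √D * (1 + Real.log V) ≤ 2 * V * (2 * (Z * N ^ (-(η / 4)))) * (2 * Real.log N) :=
    mul_le_mul e1 hlV hlV0 (by positivity)
  have hlD0 : 0 ≤ 1 + Real.log D := by
    have h1 : 1 ≤ D := by
      rw [hD]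
      exact_mod_cast hD3
    have := Real.log_nonneg h1
    linarith
  calc 2 * V * √D * (1 + Real.log V) * (1 + Real.log D)
      ≤ 2 * V * (2 * (Z * N ^ (-(η / 4)))) * (2 * Real.log N) * (4 * Real.log N) :=
        mul_le_mul e2 hlD hlD0 (by positivity)
    _ = 32 * (Z * V) * (N ^ (-(η / 4)) * Real.log N ^ 2) := by ring

theorem BIL_B {N Z V η : ℝ} (hη : 0 < η) (hN : 3 ≤ N) (hZ1 : N ^ η ≤ Z) (hV1 : N ^ η ≤ V) (hV2 : V ≤ N)
    {m e : ℕ} {τ : ℝ} (hτ : 0 ≤ τ) (hm : (m : ℝ) ≤ N ^ (η / 16))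
    {A : ℝ} (hA : A ≤ 18 * e * Z * V * √(m * Z / ((⌈Z ^ (3 / 2 : ℝ)⌉₊ : ℕ) : ℝ)) +
      τ * √(m * Z) * V * (1 + Real.log V)) :
    A ≤ (18 * e + 2 * τ) * (Z * V) * (N ^ (-(7 * η / 32)) * Real.log N ^ 2) := by
  have hN1 : (1 : ℝ) ≤ N := by linarith
  have hN0 : (0 : ℝ) < N := by linarith
  have hNη : 1 ≤ N ^ η := Real.one_le_rpow hN1 hη.le
  have hZ : 1 ≤ Z := hNη.trans hZ1
  have hV : 1 ≤ V := hNη.trans hV1
  have hZ0 : 0 < Z := by linarith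
  have hV0 : 0 < V := by linarith
  obtain ⟨hD1, -, -⟩ := BIL_D hZ
  set D : ℝ := ((⌈Z ^ (3 / 2 : ℝ)⌉₊ : ℕ) : ℝ) with hD
  have hD0 : 0 < D := lt_of_lt_of_le (Real.rpow_pos_of_pos hZ0 _) hD1
  have hL : 1 ≤ Real.log N := by
    rw [Real.le_log_iff_exp_le (by linarith)]
    have := Real.exp_one_lt_d9
    linarith
  have hL2 : 1 ≤ Real.log N ^ 2 := one_le_pow₀ hL
  have hlV : 1 + Real.log V ≤ 2 * Real.log N := by
    have := Real.log_le_log hV0 hV2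
    linarith
  have hlV0 : 0 ≤ 1 + Real.log V := by
    have := Real.log_nonneg hV
    linarith
  have hsm : √(m : ℝ) ≤ N ^ (η / 32) := by
    have h1 := BIL_sqrtm hN1 hm
    have h2 : η / 16 / 2 = η / 32 := by ring
    rwa [h2] at h1
  -- negative powers of Z
  have hneg : ∀ t : ℝ, 0 ≤ t → Z ^ (-t) ≤ N ^ (-(η * t)) := by
    intro t ht
    have h3 : (N ^ η) ^ (-t) = N ^ (-(η * t)) := by
      rw [← Real.rpow_mul hN0.le]
      congr 1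
      ring
    rw [← h3]
    exact Real.rpow_le_rpow_of_nonpos (Real.rpow_pos_of_pos hN0 _) hZ1 (by linarith)
  have e7 : 0 ≤ N ^ (-(7 * η / 32)) := Real.rpow_nonneg hN0.le _
  -- first square root
  have hq1 : √(m * Z / D) ≤ N ^ (-(7 * η / 32)) := by
    have h1 : m * Z / D ≤ m * Z / Z ^ (3 / 2 : ℝ) :=
      div_le_div_of_nonneg_left (by positivity) (Real.rpow_pos_of_pos hZ0 _) hD1
    have h2 : (m : ℝ) * Z / Z ^ (3 / 2 : ℝ) = m * Z ^ (-(1 / 2) : ℝ) := by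
      have h3 : Z ^ (-(1 / 2) : ℝ) = Z / Z ^ (3 / 2 : ℝ) := by
        nth_rewrite 2 [← Real.rpow_one Z]
        rw [← Real.rpow_sub hZ0]
        norm_num
      rw [h3]
      ring
    rw [h2] at h1
    have h4 : √(m * Z / D) ≤ √(m * Z ^ (-(1 / 2) : ℝ)) := Real.sqrt_le_sqrt h1
    have h5 : √((m : ℝ) * Z ^ (-(1 / 2) : ℝ)) = √(m : ℝ) * √(Z ^ (-(1 / 2) : ℝ)) :=
      Real.sqrt_mul (Nat.cast_nonneg _) _
    have h6 : √(Z ^ (-(1 / 2) : ℝ)) = Z ^ (-(1 / 4) : ℝ) := by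
      rw [Real.sqrt_eq_rpow, ← Real.rpow_mul hZ0.le]
      norm_num
    have h7 : Z ^ (-(1 / 4) : ℝ) ≤ N ^ (-(η * (1 / 4))) := hneg (1 / 4) (by norm_num)
    calc √(m * Z / D) ≤ √(m : ℝ) * Z ^ (-(1 / 4) : ℝ) := by
          rw [h5, h6] at h4
          exact h4
      _ ≤ N ^ (η / 32) * N ^ (-(η * (1 / 4))) :=
          mul_le_mul hsm h7 (Real.rpow_nonneg hZ0.le _) (Real.rpow_nonneg hN0.le _)
      _ = N ^ (-(7 * η / 32)) := by
          rw [← Real.rpow_add hN0]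
          congr 1
          ring
  -- second square root
  have hq2 : √(m * Z) ≤ Z * N ^ (-(7 * η / 32)) := by
    have h5 : √((m : ℝ) * Z) = √(m : ℝ) * √Z := Real.sqrt_mul (Nat.cast_nonneg _) _
    have h6 : √Z = Z * Z ^ (-(1 / 2) : ℝ) := by
      rw [Real.sqrt_eq_rpow]
      nth_rewrite 2 [← Real.rpow_one Z]
      rw [← Real.rpow_add hZ0]
      norm_num
    have h7 : Z ^ (-(1 / 2) : ℝ) ≤ N ^ (-(η * (1 / 2))) := hneg (1 / 2) (by norm_num)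
    have h8 : N ^ (η / 32) * N ^ (-(η * (1 / 2))) ≤ N ^ (-(7 * η / 32)) := by
      rw [← Real.rpow_add hN0]
      apply Real.rpow_le_rpow_of_exponent_le hN1
      linarith
    have h9 : √(m : ℝ) * Z ^ (-(1 / 2) : ℝ) ≤ N ^ (η / 32) * N ^ (-(η * (1 / 2))) :=
      mul_le_mul hsm h7 (Real.rpow_nonneg hZ0.le _) (Real.rpow_nonneg hN0.le _)
    calc √(m * Z) = Z * (√(m : ℝ) * Z ^ (-(1 / 2) : ℝ)) := by
          rw [h5, h6]
          ring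
      _ ≤ Z * N ^ (-(7 * η / 32)) := mul_le_mul_of_nonneg_left (h9.trans h8) hZ0.le
  refine hA.trans ?_
  have f1 : 18 * e * Z * V * √(m * Z / D) ≤ 18 * e * (Z * V) * (N ^ (-(7 * η / 32)) * Real.log N ^ 2) := by
    have g1 : √(m * Z / D) ≤ N ^ (-(7 * η / 32)) * Real.log N ^ 2 :=
      hq1.trans (le_mul_of_one_le_right e7 hL2)
    have g2 : 18 * (e : ℝ) * Z * V = 18 * e * (Z * V) := by ring
    rw [g2]
    exact mul_le_mul_of_nonneg_left g1 (by positivity)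
  have f2 : τ * √(m * Z) * V * (1 + Real.log V) ≤ 2 * τ * (Z * V) * (N ^ (-(7 * η / 32)) * Real.log N ^ 2) := by
    have g1 : τ * √(m * Z) * V ≤ τ * (Z * N ^ (-(7 * η / 32))) * V :=
      mul_le_mul_of_nonneg_right (mul_le_mul_of_nonneg_left hq2 hτ) hV0.le
    have g3 : 1 + Real.log V ≤ 2 * Real.log N ^ 2 := by nlinarith
    calc τ * √(m * Z) * V * (1 + Real.log V)
        ≤ τ * (Z * N ^ (-(7 * η / 32))) * V * (2 * Real.log N ^ 2) :=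
          mul_le_mul g1 g3 hlV0 (by positivity)
      _ = 2 * τ * (Z * V) * (N ^ (-(7 * η / 32)) * Real.log N ^ 2) := by ring
  calc _ ≤ 18 * e * (Z * V) * (N ^ (-(7 * η / 32)) * Real.log N ^ 2) +
        2 * τ * (Z * V) * (N ^ (-(7 * η / 32)) * Real.log N ^ 2) := add_le_add f1 f2
    _ = _ := by ring

theorem BIL_fin {N η K : ℝ} (hη : 0 < η) (hK : 0 ≤ K) (hN : 3 ≤ N)
    (hN' : (K * (32 / η) ^ 2) ^ (1 / (3 * η / 32)) ≤ N) :
    K * (N ^ (-(7 * η / 32)) * Real.log N ^ 2) ≤ N ^ (-(η / 16)) := by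
  have hN0 : (0 : ℝ) < N := by linarith
  have h1 : K * (32 / η) ^ 2 ≤ N ^ (3 * η / 32) := BIL_up (by positivity) (by positivity) hN'
  have h2 : Real.log N ≤ N ^ (η / 32) * (32 / η) := by
    have h3 := Real.log_le_rpow_div hN0.le (show 0 < η / 32 by positivity)
    calc Real.log N ≤ N ^ (η / 32) / (η / 32) := h3
      _ = N ^ (η / 32) * (32 / η) := by
          field_simp
  have hL0 : 0 ≤ Real.log N := Real.log_nonneg (by linarith)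
  have h4 : Real.log N ^ 2 ≤ N ^ (η / 16) * (32 / η) ^ 2 := by
    calc Real.log N ^ 2 ≤ (N ^ (η / 32) * (32 / η)) ^ 2 := pow_le_pow_left₀ hL0 h2 2
      _ = (N ^ (η / 32)) ^ 2 * (32 / η) ^ 2 := by ring
      _ = N ^ (η / 16) * (32 / η) ^ 2 := by
          rw [← Real.rpow_natCast (N ^ (η / 32)), ← Real.rpow_mul hN0.le]
          congr 2
          push_cast
          ring
  calc K * (N ^ (-(7 * η / 32)) * Real.log N ^ 2)
      ≤ K * (N ^ (-(7 * η / 32)) * (N ^ (η / 16) * (32 / η) ^ 2)) := by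
        apply mul_le_mul_of_nonneg_left _ hK
        exact mul_le_mul_of_nonneg_left h4 (Real.rpow_nonneg hN0.le _)
    _ = N ^ (-(7 * η / 32)) * N ^ (η / 16) * (K * (32 / η) ^ 2) := by ring
    _ ≤ N ^ (-(7 * η / 32)) * N ^ (η / 16) * N ^ (3 * η / 32) :=
        mul_le_mul_of_nonneg_left h1 (by positivity)
    _ = N ^ (-(η / 16)) := by
        rw [← Real.rpow_add hN0, ← Real.rpow_add hN0]
        congr 1
        ring

theorem BIL (hBID : BID_stmt) (hBLA : BLA_stmt) (hBLB : BLB_stmt) : BIL_stmt := by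
  intro w e hw he hwe η hη
  set K : ℝ := 32 + (18 * e + 2 * ((PP w).divisors.card : ℝ)) with hKdef
  have hK : 0 ≤ K := by positivity
  refine ⟨η / 16, max 3 ((K * (32 / η) ^ 2) ^ (1 / (3 * η / 32))), by positivity, ?_⟩
  intro N Z V hN hZ1 hZ2 hV1 hV2 m hm hmN a b Z₁ Z₂ V₁ V₂ hZ hV
  have hN3 : 3 ≤ N := (le_max_left _ _).trans hN
  have hN' : (K * (32 / η) ^ 2) ^ (1 / (3 * η / 32)) ≤ N := (le_max_right _ _).trans hN
  have hN1 : (1 : ℝ) ≤ N := by linarith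
  have hNη : 1 ≤ N ^ η := Real.one_le_rpow hN1 hη.le
  have hZ0 : 1 ≤ Z := hNη.trans hZ1
  have hV0 : 1 ≤ V := hNη.trans hV1
  have hD3 := (BIL_D hZ0).2.2
  have hid := hBID w e hw he hwe m a b Z₁ Z₂ V₁ V₂ hm
  have hcast : (∑ z ∈ (Ioc Z₁ Z₂).filter (fun z => z ≡ a [MOD e]), ∑ y ∈ (Ioc V₁ V₂).filter (fun y => y ≡ b [MOD e]),
      if Nat.Coprime (rad w y) (m * z) then ((kap w y ((m * z : ℕ) : ℤ) : ℝ) - 1) else 0) =
      ((bs w e m a b Z₁ Z₂ V₁ V₂ (Icc 1 V₂) : ℤ) : ℝ) := by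
    rw [← hid]
    push_cast
    rfl
  rw [hcast, BIL_split w e m a b Z₁ Z₂ V₁ V₂ _ hD3]
  push_cast
  have hA := BIL_A hη hN3 hZ1 hZ2 hV1 hV2 (hBLA w e hw he hwe m a b Z₁ Z₂ V₁ V₂ _ hm hD3 V hV0 hV)
  have hB := BIL_B hη hN3 hZ1 hV1 hV2 (e := e) (τ := ((PP w).divisors.card : ℝ)) (Nat.cast_nonneg _) hmN
    (hBLB w e hw he hwe m a b Z₁ Z₂ V₁ V₂ _ hm hD3 Z V hZ0 hV0 hZ hV)
  have hZV : 0 ≤ Z * V := by positivity
  have hA' : 32 * (Z * V) * (N ^ (-(η / 4)) * Real.log N ^ 2) ≤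
      32 * (Z * V) * (N ^ (-(7 * η / 32)) * Real.log N ^ 2) := by
    apply mul_le_mul_of_nonneg_left _ (by positivity)
    apply mul_le_mul_of_nonneg_right _ (by positivity)
    apply Real.rpow_le_rpow_of_exponent_le hN1
    linarith
  have hfin := BIL_fin hη hK hN3 hN'
  calc |((bs w e m a b Z₁ Z₂ V₁ V₂ (Icc 1 ⌈Z ^ (3 / 2 : ℝ)⌉₊) : ℤ) : ℝ) +
        ((bs w e m a b Z₁ Z₂ V₁ V₂ (Ioc ⌈Z ^ (3 / 2 : ℝ)⌉₊ V₂) : ℤ) : ℝ)|
      ≤ _ := abs_add_le _ _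
    _ ≤ 32 * (Z * V) * (N ^ (-(7 * η / 32)) * Real.log N ^ 2) +
        (18 * e + 2 * ((PP w).divisors.card : ℝ)) * (Z * V) * (N ^ (-(7 * η / 32)) * Real.log N ^ 2) :=
        add_le_add (hA.trans hA') hB
    _ = Z * V * (K * (N ^ (-(7 * η / 32)) * Real.log N ^ 2)) := by
        rw [hKdef]
        ring
    _ ≤ Z * V * N ^ (-(η / 16)) := mul_le_mul_of_nonneg_left hfin hZV
    _ = N ^ (-(η / 16)) * (Z * V) := mul_comm _ _

end Pool.Agent.AP
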