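import Pool.Agent.helper94.AP.SpecB

/-!
# AP (MP_16912e_nt), row BLB: the part `d > Δ` of the bilinear sum
-/

set_option autoImplicit false

namespace Pool.Agent.AP

open Finset Pool.Agent.helper3.FT

/-- `∑_(k ≤ K) 1/√k ≤ 2 √K` -/
theorem BLB_sqrtSum (K : ℕ) : ∑ k ∈ Icc 1 K, 1 / √(k : ℝ) ≤ 2 * √(K : ℝ) := by
  induction K with
  | zero => simp
  | succ K ih =>
    rw [Finset.sum_Icc_succ_top (by omega)]
    have h1 : 0 < √((K + 1 : ℕ) : ℝ) := Real.sqrt_pos.mpr (by positivity)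
    have h2 : √(K : ℝ) ≤ √((K + 1 : ℕ) : ℝ) := Real.sqrt_le_sqrt (by push_cast; linarith)
    have h3 : √((K + 1 : ℕ) : ℝ) ^ 2 = (K : ℝ) + 1 := by
      rw [Real.sq_sqrt (by positivity)]
      push_cast
      ring
    have h4 : √(K : ℝ) ^ 2 = (K : ℝ) := Real.sq_sqrt (Nat.cast_nonneg _)
    have h5 : 0 ≤ √(K : ℝ) := Real.sqrt_nonneg _
    have h6 : 1 / √((K + 1 : ℕ) : ℝ) ≤ 2 * (√((K + 1 : ℕ) : ℝ) - √(K : ℝ)) := by
      rw [div_le_iff₀ h1]
      nlinarith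
    linarith

/-- `∑_(k ≤ K) 1/k ≤ 1 + log V` for `K ≤ V` -/
theorem BLB_harm (K : ℕ) {V : ℝ} (hV : 1 ≤ V) (hK : (K : ℝ) ≤ V) : ∑ k ∈ Icc 1 K, 1 / (k : ℝ) ≤ 1 + Real.log V := by
  rcases Nat.eq_zero_or_pos K with h0 | h0
  · subst h0
    have := Real.log_nonneg hV
    simp
    linarith
  · have h1 : ∑ k ∈ Icc 1 K, 1 / (k : ℝ) = ((harmonic K : ℚ) : ℝ) := by
      rw [harmonic_eq_sum_Icc]
      push_cast
      apply Finset.sum_congr rfl
      intro k _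
      rw [one_div]
    rw [h1]
    have h2 := harmonic_le_one_add_log K
    have h3 : Real.log K ≤ Real.log V := Real.log_le_log (by exact_mod_cast h0) hK
    linarith

/-- the inner sum over `d` -/
def BLB_in (e₀ n b k D₁ D₂ : ℕ) : ℤ :=
  ∑ d ∈ (Ioc D₁ D₂).filter (fun d => Squarefree d ∧ Nat.Coprime d e₀ ∧ d * k ≡ b [MOD e₀]), jacobiSym (n : ℤ) d

theorem BLB_rearr (w e₀ m a b Z₁ Z₂ V₁ V₂ Δ : ℕ) (hΔ : 1 ≤ Δ) :
    bs w e₀ m a b Z₁ Z₂ V₁ V₂ (Ioc Δ V₂) =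
      ∑ z ∈ (Ioc Z₁ Z₂).filter (fun z => z ≡ a [MOD e₀]), ∑ k ∈ Icc 1 (V₂ / Δ),
        if Nat.Coprime (rad w k) (m * z) then BLB_in e₀ (m * z) b k (max Δ (V₁ / k)) (V₂ / k) else 0 := by
  unfold bs
  rw [Finset.sum_comm' (s' := fun k => (Ioc (max Δ (V₁ / k)) (V₂ / k)).filter
    (fun d => Squarefree d ∧ Nat.Coprime d e₀ ∧ d * k ≡ b [MOD e₀])) (t' := Icc 1 (V₂ / Δ))]
  · rw [Finset.sum_comm (s := (Ioc Z₁ Z₂).filter (fun z => z ≡ a [MOD e₀]))]
    apply Finset.sum_congr rfl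
    intro k _
    rw [Finset.sum_comm]
    apply Finset.sum_congr rfl
    intro z _
    unfold BLB_in
    by_cases h : Nat.Coprime (rad w k) (m * z)
    · simp only [if_pos h]
    · simp only [if_neg h, Finset.sum_const_zero]
  · intro d k
    simp only [mem_filter, mem_Ioc, mem_Icc, max_lt_iff]
    constructor
    · rintro ⟨⟨⟨h1, h2⟩, h3, h4, h5⟩, ⟨h6, h7⟩, h8⟩
      have hd : 0 < d := by omega
      have hk : 0 < k := lt_of_le_of_lt (Nat.zero_le _) h6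
      have h9 : k * d ≤ V₂ := (Nat.le_div_iff_mul_le hd).mp h7
      have h10 : V₁ < k * d := (Nat.div_lt_iff_lt_mul hd).mp h6
      refine ⟨⟨⟨⟨h1, ?_⟩, ?_⟩, h4, h5, h8⟩, ⟨hk, ?_⟩⟩
      · rw [Nat.div_lt_iff_lt_mul hk]
        linarith [mul_comm k d]
      · rw [Nat.le_div_iff_mul_le hk]
        linarith [mul_comm k d]
      · exact h7.trans (Nat.div_le_div_left h1.le hΔ)
    · rintro ⟨⟨⟨⟨h1, h2⟩, h3⟩, h4, h5, h6⟩, ⟨hk, h7⟩⟩
      have hd : 0 < d := by omega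
      have h9 : d * k ≤ V₂ := (Nat.le_div_iff_mul_le hk).mp h3
      have h10 : V₁ < d * k := (Nat.div_lt_iff_lt_mul hk).mp h2
      refine ⟨⟨⟨h1, h3.trans (Nat.div_le_self _ _)⟩, by omega, h4, h5⟩, ⟨?_, ?_⟩, h6⟩
      · rw [Nat.div_lt_iff_lt_mul hd]
        linarith [mul_comm k d]
      · rw [Nat.le_div_iff_mul_le hd]
        linarith [mul_comm k d]

theorem BLB_triv (e₀ n b k D₁ D₂ : ℕ) : |((BLB_in e₀ n b k D₁ D₂ : ℤ) : ℝ)| ≤ D₂ := by
  have h1 : |BLB_in e₀ n b k D₁ D₂| ≤ (D₂ : ℤ) := by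
    unfold BLB_in
    refine (Finset.abs_sum_le_sum_abs _ _).trans ?_
    have h2 : ∀ d ∈ (Ioc D₁ D₂).filter (fun d => Squarefree d ∧ Nat.Coprime d e₀ ∧ d * k ≡ b [MOD e₀]),
        |jacobiSym (n : ℤ) d| ≤ 1 := by
      intro d _
      rcases jacobiSym.trichotomy (n : ℤ) d with h | h | h <;> rw [h] <;> norm_num
    refine (Finset.sum_le_sum h2).trans ?_
    rw [Finset.sum_const, nsmul_eq_mul, mul_one]
    have h3 : ((Ioc D₁ D₂).filter (fun d => Squarefree d ∧ Nat.Coprime d e₀ ∧ d * k ≡ b [MOD e₀])).card ≤ D₂ := by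
      refine (Finset.card_filter_le _ _).trans ?_
      rw [Nat.card_Ioc]
      omega
    exact_mod_cast h3
  exact_mod_cast h1

theorem BLB (hBL1 : BL1_stmt) (hBL2 : BL2_stmt) : BLB_stmt := by
  intro w e₀ hw he hwe m a b Z₁ Z₂ V₁ V₂ Δ hm hΔ Z V hZ hV hZ₂ hV₂
  have h2e : 2 ∣ e₀ := (hwe 2 Nat.prime_two).mpr hw
  have hΔ0 : (0 : ℝ) < Δ := by exact_mod_cast hΔ
  have hZ0 : 0 < Z := by linarith
  have hV0 : 0 < V := by linarith
  set K := V₂ / Δ with hK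
  have hKV2 : K ≤ V₂ := Nat.div_le_self _ _
  have hKV : (K : ℝ) ≤ V := le_trans (by exact_mod_cast hKV2) hV₂
  have hKΔ : (K : ℝ) ≤ V / Δ := by
    calc (K : ℝ) ≤ (V₂ : ℝ) / Δ := Nat.cast_div_le
      _ ≤ V / Δ := div_le_div_of_nonneg_right hV₂ hΔ0.le
  rw [BLB_rearr w e₀ m a b Z₁ Z₂ V₁ V₂ Δ hΔ, ← hK]
  push_cast
  -- the bound for one z, exceptional or not
  let ex : ℕ → Prop := fun z => ∀ l : ℕ, l.Prime → ¬ l ∣ e₀ → Even ((m * z).factorization l)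
  have hdiv : ∀ k ∈ Icc 1 K, (((V₂ / k : ℕ) : ℝ)) ≤ V / k := by
    intro k hk
    have hk0 : (0 : ℝ) < k := by exact_mod_cast (mem_Icc.mp hk).1
    calc (((V₂ / k : ℕ) : ℝ)) ≤ (V₂ : ℝ) / k := Nat.cast_div_le
      _ ≤ V / k := div_le_div_of_nonneg_right hV₂ hk0.le
  have htriv : ∀ z : ℕ, |∑ k ∈ Icc 1 K, if Nat.Coprime (rad w k) (m * z) then
      ((BLB_in e₀ (m * z) b k (max Δ (V₁ / k)) (V₂ / k) : ℤ) : ℝ) else 0| ≤ V * (1 + Real.log V) := by
    intro z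
    refine (Finset.abs_sum_le_sum_abs _ _).trans ?_
    have h1 : ∀ k ∈ Icc 1 K, |if Nat.Coprime (rad w k) (m * z) then
        ((BLB_in e₀ (m * z) b k (max Δ (V₁ / k)) (V₂ / k) : ℤ) : ℝ) else 0| ≤ V * (1 / (k : ℝ)) := by
      intro k hk
      have h2 := (BLB_triv e₀ (m * z) b k (max Δ (V₁ / k)) (V₂ / k)).trans (hdiv k hk)
      have h3 : V / (k : ℝ) = V * (1 / (k : ℝ)) := by ring
      split_ifs
      · rw [← h3]
        exact h2
      · rw [abs_zero]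
        positivity
    refine (Finset.sum_le_sum h1).trans ?_
    rw [← Finset.mul_sum]
    exact mul_le_mul_of_nonneg_left (BLB_harm K hV hKV) hV0.le
  have hgen : ∀ z : ℕ, 1 ≤ z → (z : ℝ) ≤ Z → ¬ ex z → |∑ k ∈ Icc 1 K, if Nat.Coprime (rad w k) (m * z) then
      ((BLB_in e₀ (m * z) b k (max Δ (V₁ / k)) (V₂ / k) : ℤ) : ℝ) else 0| ≤
      18 * e₀ * V * √(m * Z / Δ) := by
    intro z hz1 hzZ hex
    have hex' : ∃ l : ℕ, l.Prime ∧ ¬ l ∣ e₀ ∧ Odd ((m * z).factorization l) := by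
      by_contra hcon
      apply hex
      intro l hl hle
      by_contra hodd
      exact hcon ⟨l, hl, hle, Nat.not_even_iff_odd.mp hodd⟩
    refine (Finset.abs_sum_le_sum_abs _ _).trans ?_
    have h1 : ∀ k ∈ Icc 1 K, |if Nat.Coprime (rad w k) (m * z) then
        ((BLB_in e₀ (m * z) b k (max Δ (V₁ / k)) (V₂ / k) : ℤ) : ℝ) else 0| ≤
        9 * e₀ * √(m * Z * V) * (1 / √(k : ℝ)) := by
      intro k hk
      have hk1 : 1 ≤ k := (mem_Icc.mp hk).1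
      have hk0 : (0 : ℝ) < k := by exact_mod_cast hk1
      have hkK : (k : ℝ) ≤ K := by exact_mod_cast (mem_Icc.mp hk).2
      have hX : 1 ≤ V / k := by
        rw [le_div_iff₀ hk0, one_mul]
        linarith
      have hmz : 1 ≤ m * z := Nat.mul_pos hm hz1
      have h2 := hBL1 e₀ (m * z) k b he h2e hmz hex' (max Δ (V₁ / k)) (V₂ / k) (V / k) hX (hdiv k hk)
      have h3 : √(((m * z : ℕ) : ℝ) * (V / k)) ≤ √(m * Z * V) * (1 / √(k : ℝ)) := by
        have h4 : ((m * z : ℕ) : ℝ) * (V / k) ≤ m * Z * V / k := by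
          push_cast
          have h5 : (m : ℝ) * z ≤ m * Z := mul_le_mul_of_nonneg_left hzZ (Nat.cast_nonneg _)
          calc (m : ℝ) * z * (V / k) ≤ m * Z * (V / k) := mul_le_mul_of_nonneg_right h5 (by positivity)
            _ = m * Z * V / k := by ring
        calc √(((m * z : ℕ) : ℝ) * (V / k)) ≤ √(m * Z * V / k) := Real.sqrt_le_sqrt h4
          _ = √(m * Z * V) / √(k : ℝ) := Real.sqrt_div (by positivity) _
          _ = √(m * Z * V) * (1 / √(k : ℝ)) := by ring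
      have h6 : 9 * (e₀ : ℝ) * √(((m * z : ℕ) : ℝ) * (V / k)) ≤ 9 * e₀ * √(m * Z * V) * (1 / √(k : ℝ)) := by
        calc 9 * (e₀ : ℝ) * √(((m * z : ℕ) : ℝ) * (V / k)) ≤ 9 * e₀ * (√(m * Z * V) * (1 / √(k : ℝ))) :=
              mul_le_mul_of_nonneg_left h3 (by positivity)
          _ = 9 * e₀ * √(m * Z * V) * (1 / √(k : ℝ)) := by ring
      split_ifs
      · exact h2.trans h6
      · rw [abs_zero]
        positivity
    refine (Finset.sum_le_sum h1).trans ?_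
    rw [← Finset.mul_sum]
    have h7 : ∑ k ∈ Icc 1 K, 1 / √(k : ℝ) ≤ 2 * √(V / Δ) :=
      (BLB_sqrtSum K).trans (mul_le_mul_of_nonneg_left (Real.sqrt_le_sqrt hKΔ) (by norm_num))
    calc 9 * (e₀ : ℝ) * √(m * Z * V) * ∑ k ∈ Icc 1 K, 1 / √(k : ℝ)
        ≤ 9 * e₀ * √(m * Z * V) * (2 * √(V / Δ)) := mul_le_mul_of_nonneg_left h7 (by positivity)
      _ = 18 * e₀ * (√(m * Z * V) * √(V / Δ)) := by ring
      _ = 18 * e₀ * (V * √(m * Z / Δ)) := by
          congr 1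
          rw [← Real.sqrt_mul (by positivity)]
          have h8 : (m : ℝ) * Z * V * (V / Δ) = V ^ 2 * (m * Z / Δ) := by ring
          rw [h8, Real.sqrt_mul (by positivity), Real.sqrt_sq hV0.le]
      _ = 18 * e₀ * V * √(m * Z / Δ) := by ring
  classical
  set A := (Ioc Z₁ Z₂).filter (fun z => z ≡ a [MOD e₀]) with hA
  have hAmem : ∀ z ∈ A, 1 ≤ z ∧ (z : ℝ) ≤ Z := by
    intro z hz
    have h1 := mem_Ioc.mp (mem_filter.mp hz).1
    refine ⟨by omega, le_trans ?_ hZ₂⟩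
    exact_mod_cast h1.2
  have hAcard : (A.card : ℝ) ≤ Z := by
    have h1 : A.card ≤ Z₂ := by
      refine (Finset.card_filter_le _ _).trans ?_
      rw [Nat.card_Ioc]
      omega
    exact le_trans (by exact_mod_cast h1) hZ₂
  refine (Finset.abs_sum_le_sum_abs _ _).trans ?_
  rw [← Finset.sum_filter_not_add_sum_filter A ex]
  have hS : 0 ≤ 18 * (e₀ : ℝ) * V * √(m * Z / Δ) := by positivity
  have hlog : 0 ≤ Real.log V := Real.log_nonneg hV
  have hT : 0 ≤ V * (1 + Real.log V) := by positivity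
  apply add_le_add
  · have h1 : ∀ z ∈ A.filter (fun z => ¬ ex z), |∑ k ∈ Icc 1 K, if Nat.Coprime (rad w k) (m * z) then
        ((BLB_in e₀ (m * z) b k (max Δ (V₁ / k)) (V₂ / k) : ℤ) : ℝ) else 0| ≤
        18 * e₀ * V * √(m * Z / Δ) := by
      intro z hz
      have h2 := mem_filter.mp hz
      exact hgen z (hAmem z h2.1).1 (hAmem z h2.1).2 h2.2
    refine (Finset.sum_le_sum h1).trans ?_
    rw [Finset.sum_const, nsmul_eq_mul]
    have h3 : ((A.filter (fun z => ¬ ex z)).card : ℝ) ≤ Z :=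
      le_trans (by exact_mod_cast Finset.card_filter_le _ _) hAcard
    calc ((A.filter (fun z => ¬ ex z)).card : ℝ) * (18 * e₀ * V * √(m * Z / Δ))
        ≤ Z * (18 * e₀ * V * √(m * Z / Δ)) := mul_le_mul_of_nonneg_right h3 hS
      _ = 18 * e₀ * Z * V * √(m * Z / Δ) := by ring
  · refine (Finset.sum_le_sum fun z _ => htriv z).trans ?_
    rw [Finset.sum_const, nsmul_eq_mul]
    have h3 : ((A.filter ex).card : ℝ) ≤ (PP w).divisors.card * √(m * Z) := by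
      apply hBL2 w e₀ hw he hwe m hm Z hZ
      intro z hz
      have h2 := mem_filter.mp hz
      exact ⟨(hAmem z h2.1).1, (hAmem z h2.1).2, h2.2⟩
    calc ((A.filter ex).card : ℝ) * (V * (1 + Real.log V))
        ≤ (PP w).divisors.card * √(m * Z) * (V * (1 + Real.log V)) := mul_le_mul_of_nonneg_right h3 hT
      _ = (PP w).divisors.card * √(m * Z) * V * (1 + Real.log V) := by ring

end Pool.Agent.AP
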