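import Pool.Agent.helper94.AP.SpecB

/-!
# AP (MP_16912e_nt), row BSM: the main term in boxes
-/

set_option autoImplicit false

namespace Pool.Agent.AP

open Finset Pool.Agent.helper3.FT

theorem BSM_card {A B r : ℕ} (hr : 0 < r) (hAB : A ≤ B) (v : ℕ) :
    |(((Ioc A B).filter (fun x => x ≡ v [MOD r])).card : ℝ) - ((B : ℝ) - A) / r| ≤ 1 := by
  have hr' : (0 : ℚ) < r := by exact_mod_cast hr
  have hAB' : (A : ℚ) ≤ B := by exact_mod_cast hAB
  have h := Nat.Ioc_filter_modEq_card A B hr v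
  have hle : ⌊((A : ℚ) - v) / (r : ℚ)⌋ ≤ ⌊((B : ℚ) - v) / (r : ℚ)⌋ := by
    apply Int.floor_le_floor
    apply div_le_div_of_nonneg_right _ hr'.le
    linarith
  rw [max_eq_left (by omega)] at h
  have h' : (((Ioc A B).filter (fun x => x ≡ v [MOD r])).card : ℚ) =
      (⌊((B : ℚ) - v) / (r : ℚ)⌋ : ℚ) - (⌊((A : ℚ) - v) / (r : ℚ)⌋ : ℚ) := by
    exact_mod_cast h
  have h1 := Int.floor_le (((B : ℚ) - v) / (r : ℚ))
  have h2 := Int.lt_floor_add_one (((B : ℚ) - v) / (r : ℚ))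
  have h3 := Int.floor_le (((A : ℚ) - v) / (r : ℚ))
  have h4 := Int.lt_floor_add_one (((A : ℚ) - v) / (r : ℚ))
  have h5 : ((B : ℚ) - v) / (r : ℚ) - ((A : ℚ) - v) / (r : ℚ) = ((B : ℚ) - A) / r := by ring
  have h6 : |(((Ioc A B).filter (fun x => x ≡ v [MOD r])).card : ℚ) - ((B : ℚ) - A) / r| ≤ 1 := by
    rw [h', ← h5, abs_le]
    constructor <;> linarith
  have h7 := (Rat.cast_le (K := ℝ)).mpr h6
  push_cast at h7
  exact h7

theorem BSM_div {A B e q : ℕ} (he : 0 < e) (hq : 0 < q) (hco : Nat.Coprime e q) (hAB : A ≤ B) (a : ℕ) :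
    ((((Ioc A B).filter (fun x => x ≡ a [MOD e])).filter (fun x => q ∣ x)).card : ℝ) ≤
      ((B : ℝ) - A) / (e * q) + 1 := by
  have h1 : ((Ioc A B).filter (fun x => x ≡ a [MOD e])).filter (fun x => q ∣ x) ⊆
      (Ioc A B).filter (fun x => x ≡ (Nat.chineseRemainder hco a 0 : ℕ) [MOD e * q]) := by
    intro x hx
    rw [mem_filter, mem_filter] at hx
    obtain ⟨⟨hx1, hx2⟩, hx3⟩ := hx
    rw [mem_filter]
    refine ⟨hx1, ?_⟩
    obtain ⟨c1, c2⟩ := (Nat.chineseRemainder hco a 0).2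
    rw [← Nat.modEq_and_modEq_iff_modEq_mul hco]
    refine ⟨hx2.trans c1.symm, ?_⟩
    exact ((Nat.modEq_zero_iff_dvd).mpr hx3).trans c2.symm
  have h2 := BSM_card (Nat.mul_pos he hq) hAB (Nat.chineseRemainder hco a 0 : ℕ)
  have h3 := (abs_le.mp h2).2
  have h4 : ((((Ioc A B).filter (fun x => x ≡ a [MOD e])).filter (fun x => q ∣ x)).card : ℝ) ≤
      (((Ioc A B).filter (fun x => x ≡ (Nat.chineseRemainder hco a 0 : ℕ) [MOD e * q])).card : ℝ) := by
    exact_mod_cast Finset.card_le_card h1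
  push_cast at h3
  linarith

theorem BSM_div2 {A B e q : ℕ} (hq : 0 < q) (a : ℕ) {Z : ℝ} (hZ : (B : ℝ) ≤ Z) :
    ((((Ioc A B).filter (fun x => x ≡ a [MOD e])).filter (fun x => q ∣ x)).card : ℝ) ≤ Z / q := by
  have h1 : ((Ioc A B).filter (fun x => x ≡ a [MOD e])).filter (fun x => q ∣ x) ⊆
      (Ioc 0 B).filter (fun x => q ∣ x) := by
    intro x hx
    rw [mem_filter, mem_filter, mem_Ioc] at hx
    rw [mem_filter, mem_Ioc]
    exact ⟨⟨by omega, hx.1.1.2⟩, hx.2⟩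
  have h2 := Finset.card_le_card h1
  rw [Nat.Ioc_filter_dvd_card_eq_div] at h2
  have hq' : (0 : ℝ) < q := by exact_mod_cast hq
  calc ((((Ioc A B).filter (fun x => x ≡ a [MOD e])).filter (fun x => q ∣ x)).card : ℝ) ≤ ((B / q : ℕ) : ℝ) := by
        exact_mod_cast h2
    _ ≤ (B : ℝ) / q := Nat.cast_div_le
    _ ≤ Z / q := div_le_div_of_nonneg_right hZ hq'.le

/-- if `rad w y` and `z` have a common factor, there is a common prime factor `q > w` of `y` and `z` -/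
theorem BSM_pt {w y z : ℕ} (h : ¬ Nat.Coprime (rad w y) z) : ∃ q : ℕ, q.Prime ∧ w < q ∧ q ∣ y ∧ q ∣ z := by
  rw [Nat.Prime.not_coprime_iff_dvd] at h
  obtain ⟨q, hq, h1, h2⟩ := h
  unfold rad at h1
  rw [hq.prime.dvd_finset_prod_iff] at h1
  obtain ⟨q', hq', h3⟩ := h1
  rw [mem_filter, Nat.mem_primeFactors] at hq'
  have h4 : q = q' := (Nat.prime_dvd_prime_iff_eq hq hq'.1.1).mp h3
  subst h4
  exact ⟨q, hq, hq'.2, hq'.1.2.1, h2⟩

theorem BSM_ind (w Z₂ y z : ℕ) (hz : 1 ≤ z) (hz2 : z ≤ Z₂) :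
    (1 : ℝ) - (if Nat.Coprime (rad w y) z then (1 : ℝ) else 0) ≤
      ∑ q ∈ (Ioc w Z₂).filter Nat.Prime, (if q ∣ z then (1 : ℝ) else 0) * (if q ∣ y then (1 : ℝ) else 0) := by
  have h0 : ∀ q ∈ (Ioc w Z₂).filter Nat.Prime,
      (0 : ℝ) ≤ (if q ∣ z then (1 : ℝ) else 0) * (if q ∣ y then (1 : ℝ) else 0) := by
    intro q _
    split_ifs <;> norm_num
  by_cases h : Nat.Coprime (rad w y) z
  · rw [if_pos h, sub_self]
    exact Finset.sum_nonneg h0
  · obtain ⟨q, hq, hwq, hqy, hqz⟩ := BSM_pt h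
    have hmem : q ∈ (Ioc w Z₂).filter Nat.Prime := by
      rw [mem_filter, mem_Ioc]
      exact ⟨⟨hwq, (Nat.le_of_dvd hz hqz).trans hz2⟩, hq⟩
    have h1 := Finset.single_le_sum h0 hmem
    rw [if_pos hqz, if_pos hqy] at h1
    rw [if_neg h]
    linarith

theorem BSM_swap (w Z₂ : ℕ) (A B : Finset ℕ) (hA : ∀ z ∈ A, 1 ≤ z ∧ z ≤ Z₂) :
    (A.card : ℝ) * B.card - (∑ z ∈ A, ∑ y ∈ B, if Nat.Coprime (rad w y) z then (1 : ℝ) else 0) ≤
      ∑ q ∈ (Ioc w Z₂).filter Nat.Prime, ((A.filter (fun z => q ∣ z)).card : ℝ) *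
        ((B.filter (fun y => q ∣ y)).card : ℝ) := by
  have h1 : (A.card : ℝ) * B.card = ∑ _z ∈ A, ∑ _y ∈ B, (1 : ℝ) := by
    simp
  rw [h1, ← Finset.sum_sub_distrib]
  have h2 : ∀ z ∈ A, (∑ _y ∈ B, (1 : ℝ)) - (∑ y ∈ B, if Nat.Coprime (rad w y) z then (1 : ℝ) else 0) ≤
      ∑ y ∈ B, ∑ q ∈ (Ioc w Z₂).filter Nat.Prime,
        (if q ∣ z then (1 : ℝ) else 0) * (if q ∣ y then (1 : ℝ) else 0) := by
    intro z hz
    rw [← Finset.sum_sub_distrib]
    exact Finset.sum_le_sum fun y _ => BSM_ind w Z₂ y z (hA z hz).1 (hA z hz).2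
  refine (Finset.sum_le_sum h2).trans (le_of_eq ?_)
  have h3 : ∀ z ∈ A, ∑ y ∈ B, ∑ q ∈ (Ioc w Z₂).filter Nat.Prime,
        (if q ∣ z then (1 : ℝ) else 0) * (if q ∣ y then (1 : ℝ) else 0) =
      ∑ q ∈ (Ioc w Z₂).filter Nat.Prime, ∑ y ∈ B,
        (if q ∣ z then (1 : ℝ) else 0) * (if q ∣ y then (1 : ℝ) else 0) := fun z _ => Finset.sum_comm
  rw [Finset.sum_congr rfl h3, Finset.sum_comm]
  apply Finset.sum_congr rfl
  intro q _
  rw [← Finset.sum_mul_sum, Finset.sum_boole, Finset.sum_boole]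

/-- the sum over the primes -/
theorem BSM_sum {w Q M : ℕ} (hw : 1 ≤ w) (hQ : 1 ≤ Q) {c : ℕ → ℝ} {P G R : ℝ} (hP : 0 ≤ P) (hG : 0 ≤ G) (hR : 0 ≤ R)
    (h1 : ∀ q : ℕ, q.Prime → w < q → c q ≤ P / (q : ℝ) ^ 2 + G)
    (h2 : ∀ q : ℕ, q.Prime → w < q → c q ≤ R / (q : ℝ) ^ 2) :
    ∑ q ∈ (Ioc w M).filter Nat.Prime, c q ≤ P / w + Q * G + R / Q := by
  have hinv : ∀ k : ℕ, 1 ≤ k → ∀ n : ℕ, ∑ i ∈ Ioc k n, ((i : ℝ) ^ 2)⁻¹ ≤ (k : ℝ)⁻¹ := by
    intro k hk n
    rcases le_total k n with h | h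
    · have h3 := sum_Ioc_inv_sq_le_sub (α := ℝ) (by omega : k ≠ 0) h
      have h4 : (0 : ℝ) ≤ (n : ℝ)⁻¹ := by positivity
      linarith
    · rw [Finset.Ioc_eq_empty (by omega), Finset.sum_empty]
      positivity
  rw [← Finset.sum_filter_add_sum_filter_not ((Ioc w M).filter Nat.Prime) (fun q => q ≤ Q)]
  have e1 : ∑ q ∈ ((Ioc w M).filter Nat.Prime).filter (fun q => q ≤ Q), c q ≤ P / w + Q * G := by
    have g1 : ∀ q ∈ ((Ioc w M).filter Nat.Prime).filter (fun q => q ≤ Q), c q ≤ P / (q : ℝ) ^ 2 + G := by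
      intro q hq
      rw [mem_filter, mem_filter, mem_Ioc] at hq
      exact h1 q hq.1.2 hq.1.1.1
    refine (Finset.sum_le_sum g1).trans ?_
    have g2 : ((Ioc w M).filter Nat.Prime).filter (fun q => q ≤ Q) ⊆ Ioc w M :=
      (Finset.filter_subset _ _).trans (Finset.filter_subset _ _)
    have g3 : ((Ioc w M).filter Nat.Prime).filter (fun q => q ≤ Q) ⊆ Ioc 0 Q := by
      intro q hq
      rw [mem_filter, mem_filter, mem_Ioc] at hq
      rw [mem_Ioc]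
      exact ⟨hq.1.2.pos, hq.2⟩
    rw [Finset.sum_add_distrib]
    apply add_le_add
    · calc ∑ q ∈ ((Ioc w M).filter Nat.Prime).filter (fun q => q ≤ Q), P / (q : ℝ) ^ 2
          ≤ ∑ q ∈ Ioc w M, P / (q : ℝ) ^ 2 :=
            Finset.sum_le_sum_of_subset_of_nonneg g2 fun _ _ _ => by positivity
        _ = P * ∑ q ∈ Ioc w M, ((q : ℝ) ^ 2)⁻¹ := by
            rw [Finset.mul_sum]
            rfl
        _ ≤ P * (w : ℝ)⁻¹ := mul_le_mul_of_nonneg_left (hinv w hw M) hP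
        _ = P / w := by rw [div_eq_mul_inv]
    · rw [Finset.sum_const, nsmul_eq_mul]
      apply mul_le_mul_of_nonneg_right _ hG
      have g4 := Finset.card_le_card g3
      rw [Nat.card_Ioc, Nat.sub_zero] at g4
      exact_mod_cast g4
  have e2 : ∑ q ∈ ((Ioc w M).filter Nat.Prime).filter (fun q => ¬ q ≤ Q), c q ≤ R / Q := by
    have g1 : ∀ q ∈ ((Ioc w M).filter Nat.Prime).filter (fun q => ¬ q ≤ Q), c q ≤ R / (q : ℝ) ^ 2 := by
      intro q hq
      rw [mem_filter, mem_filter, mem_Ioc] at hq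
      exact h2 q hq.1.2 hq.1.1.1
    refine (Finset.sum_le_sum g1).trans ?_
    have g2 : ((Ioc w M).filter Nat.Prime).filter (fun q => ¬ q ≤ Q) ⊆ Ioc Q M := by
      intro q hq
      rw [mem_filter, mem_filter, mem_Ioc] at hq
      rw [mem_Ioc]
      exact ⟨by omega, hq.1.1.2⟩
    calc ∑ q ∈ ((Ioc w M).filter Nat.Prime).filter (fun q => ¬ q ≤ Q), R / (q : ℝ) ^ 2
        ≤ ∑ q ∈ Ioc Q M, R / (q : ℝ) ^ 2 :=
          Finset.sum_le_sum_of_subset_of_nonneg g2 fun _ _ _ => by positivity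
      _ = R * ∑ q ∈ Ioc Q M, ((q : ℝ) ^ 2)⁻¹ := by
          rw [Finset.mul_sum]
          rfl
      _ ≤ R * (Q : ℝ)⁻¹ := mul_le_mul_of_nonneg_left (hinv Q hQ M) hR
      _ = R / Q := by rw [div_eq_mul_inv]
  linarith

theorem BSM : BS_stmt := by
  intro w e hw he hwe ε hε
  obtain ⟨Q, hQ⟩ := exists_nat_gt (2 / ε)
  have hQ0 : (0 : ℝ) < Q := lt_trans (by positivity) hQ
  have hQ1 : 1 ≤ Q := by exact_mod_cast hQ0
  refine ⟨max 1 (6 * ((Q : ℝ) + 1) / ε), ?_⟩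
  intro Z V hZT hVT a b Z₁ Z₂ V₁ V₂ hZ hV hZ12 hV12
  have hZ1 : 1 ≤ Z := (le_max_left _ _).trans hZT
  have hV1 : 1 ≤ V := (le_max_left _ _).trans hVT
  have hZ' : 6 * ((Q : ℝ) + 1) / ε ≤ Z := (le_max_right _ _).trans hZT
  have hV' : 6 * ((Q : ℝ) + 1) / ε ≤ V := (le_max_right _ _).trans hVT
  have hZ0 : 0 < Z := by linarith
  have hV0 : 0 < V := by linarith
  have he0 : (0 : ℝ) < e := by exact_mod_cast he
  have he1 : (1 : ℝ) ≤ e := by exact_mod_cast he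
  have hw0 : (0 : ℝ) < w := by
    have : 0 < w := by omega
    exact_mod_cast this
  set A := (Ioc Z₁ Z₂).filter (fun z => z ≡ a [MOD e]) with hA
  set B := (Ioc V₁ V₂).filter (fun y => y ≡ b [MOD e]) with hB
  set X : ℝ := (Z₂ : ℝ) - Z₁ with hX
  set Y : ℝ := (V₂ : ℝ) - V₁ with hY
  have hX0 : 0 ≤ X := by
    have : (Z₁ : ℝ) ≤ Z₂ := by exact_mod_cast hZ12
    linarith
  have hY0 : 0 ≤ Y := by
    have : (V₁ : ℝ) ≤ V₂ := by exact_mod_cast hV12
    linarith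
  have hXZ : X ≤ Z := by
    have : (0 : ℝ) ≤ Z₁ := Nat.cast_nonneg _
    linarith
  have hYV : Y ≤ V := by
    have : (0 : ℝ) ≤ V₁ := Nat.cast_nonneg _
    linarith
  have hXe : X / e ≤ Z := (div_le_self hX0 he1).trans hXZ
  have hYe : Y / e ≤ V := (div_le_self hY0 he1).trans hYV
  have hXe0 : 0 ≤ X / e := by positivity
  have hYe0 : 0 ≤ Y / e := by positivity
  have hcA := BSM_card he hZ12 a
  have hcB := BSM_card he hV12 b
  rw [← hA, ← hX] at hcA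
  rw [← hB, ← hY] at hcB
  -- the product
  have hprod : |(A.card : ℝ) * B.card - X * Y / (e : ℝ) ^ 2| ≤ Z + V + 1 := by
    have h1 : (A.card : ℝ) * B.card - X * Y / (e : ℝ) ^ 2 =
        (X / e) * ((B.card : ℝ) - Y / e) + ((A.card : ℝ) - X / e) * (Y / e) +
          ((A.card : ℝ) - X / e) * ((B.card : ℝ) - Y / e) := by
      field_simp
      ring
    rw [h1]
    have a1 : |(X / e) * ((B.card : ℝ) - Y / e)| ≤ Z := by
      rw [abs_mul, abs_of_nonneg hXe0]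
      calc X / e * |(B.card : ℝ) - Y / e| ≤ X / e * 1 := mul_le_mul_of_nonneg_left hcB hXe0
        _ ≤ Z := by linarith
    have a2 : |((A.card : ℝ) - X / e) * (Y / e)| ≤ V := by
      rw [abs_mul, abs_of_nonneg hYe0]
      calc |(A.card : ℝ) - X / e| * (Y / e) ≤ 1 * (Y / e) := mul_le_mul_of_nonneg_right hcA hYe0
        _ ≤ V := by linarith
    have a3 : |((A.card : ℝ) - X / e) * ((B.card : ℝ) - Y / e)| ≤ 1 := by
      rw [abs_mul]
      calc |(A.card : ℝ) - X / e| * |(B.card : ℝ) - Y / e| ≤ 1 * 1 :=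
            mul_le_mul hcA hcB (abs_nonneg _) (by norm_num)
        _ = 1 := by ring
    calc _ ≤ |(X / e) * ((B.card : ℝ) - Y / e) + ((A.card : ℝ) - X / e) * (Y / e)| +
          |((A.card : ℝ) - X / e) * ((B.card : ℝ) - Y / e)| := abs_add_le _ _
      _ ≤ |(X / e) * ((B.card : ℝ) - Y / e)| + |((A.card : ℝ) - X / e) * (Y / e)| +
          |((A.card : ℝ) - X / e) * ((B.card : ℝ) - Y / e)| := by
          linarith [abs_add_le ((X / e) * ((B.card : ℝ) - Y / e)) (((A.card : ℝ) - X / e) * (Y / e))]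
      _ ≤ Z + V + 1 := by linarith
  -- the pairs with a common factor
  have hAmem : ∀ z ∈ A, 1 ≤ z ∧ z ≤ Z₂ := by
    intro z hz
    have h1 := mem_Ioc.mp (mem_filter.mp hz).1
    exact ⟨by omega, h1.2⟩
  have hsw := BSM_swap w Z₂ A B hAmem
  have hlow : 0 ≤ (A.card : ℝ) * B.card -
      (∑ z ∈ A, ∑ y ∈ B, if Nat.Coprime (rad w y) z then (1 : ℝ) else 0) := by
    have h1 : (∑ z ∈ A, ∑ y ∈ B, if Nat.Coprime (rad w y) z then (1 : ℝ) else 0) ≤
        ∑ _z ∈ A, ∑ _y ∈ B, (1 : ℝ) := by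
      apply Finset.sum_le_sum
      intro z _
      apply Finset.sum_le_sum
      intro y _
      split_ifs <;> norm_num
    have h2 : ∑ _z ∈ A, ∑ _y ∈ B, (1 : ℝ) = (A.card : ℝ) * B.card := by simp
    linarith
  have hcop : ∀ q : ℕ, q.Prime → w < q → Nat.Coprime e q := by
    intro q hq hwq
    rw [Nat.coprime_comm, hq.coprime_iff_not_dvd]
    intro hd
    have := (hwe q hq).mp hd
    omega
  have hsum := BSM_sum (w := w) (Q := Q) (M := Z₂) (by omega) hQ1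
    (c := fun q => ((A.filter (fun z => q ∣ z)).card : ℝ) * ((B.filter (fun y => q ∣ y)).card : ℝ))
    (P := X * Y / (e : ℝ) ^ 2) (G := Z + V + 1) (R := Z * V) (by positivity) (by positivity) (by positivity)
    (by
      intro q hq hwq
      have hq0 : (0 : ℝ) < q := by exact_mod_cast hq.pos
      have hq1 : (1 : ℝ) ≤ q := by exact_mod_cast hq.one_lt.le
      have h1 := BSM_div he hq.pos (hcop q hq hwq) hZ12 a
      have h2 := BSM_div he hq.pos (hcop q hq hwq) hV12 b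
      rw [← hA, ← hX] at h1
      rw [← hB, ← hY] at h2
      have h3 : X / (e * q) ≤ Z := by
        rw [← div_div]
        exact (div_le_self hXe0 hq1).trans hXe
      have h4 : Y / (e * q) ≤ V := by
        rw [← div_div]
        exact (div_le_self hYe0 hq1).trans hYe
      have h5 : 0 ≤ X / (e * q) := by positivity
      calc ((A.filter (fun z => q ∣ z)).card : ℝ) * ((B.filter (fun y => q ∣ y)).card : ℝ)
          ≤ (X / (e * q) + 1) * (Y / (e * q) + 1) :=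
            mul_le_mul h1 h2 (Nat.cast_nonneg _) (by positivity)
        _ = X * Y / (e : ℝ) ^ 2 / (q : ℝ) ^ 2 + (X / (e * q) + Y / (e * q) + 1) := by
            field_simp
            ring
        _ ≤ X * Y / (e : ℝ) ^ 2 / (q : ℝ) ^ 2 + (Z + V + 1) := by linarith)
    (by
      intro q hq hwq
      have hq0 : (0 : ℝ) < q := by exact_mod_cast hq.pos
      have h1 := BSM_div2 (A := Z₁) (e := e) hq.pos a hZ
      have h2 := BSM_div2 (A := V₁) (e := e) hq.pos b hV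
      rw [← hA] at h1
      rw [← hB] at h2
      calc ((A.filter (fun z => q ∣ z)).card : ℝ) * ((B.filter (fun y => q ∣ y)).card : ℝ)
          ≤ (Z / q) * (V / q) := mul_le_mul h1 h2 (Nat.cast_nonneg _) (by positivity)
        _ = Z * V / (q : ℝ) ^ 2 := by
            field_simp)
  -- the final estimate
  have hZV : 0 < Z * V := by positivity
  have hRQ : Z * V / Q ≤ ε / 2 * (Z * V) := by
    have h1 : 2 / ε < Q := hQ
    have h2 : 1 / (Q : ℝ) ≤ ε / 2 := by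
      rw [div_le_iff₀ hQ0]
      rw [div_lt_iff₀ hε] at h1
      linarith
    calc Z * V / Q = 1 / (Q : ℝ) * (Z * V) := by ring
      _ ≤ ε / 2 * (Z * V) := mul_le_mul_of_nonneg_right h2 hZV.le
  have hG : ((Q : ℝ) + 1) * (Z + V + 1) ≤ ε / 2 * (Z * V) := by
    have h1 : 6 * ((Q : ℝ) + 1) ≤ ε * Z := by
      rw [div_le_iff₀ hε] at hZ'
      linarith
    have h2 : 6 * ((Q : ℝ) + 1) ≤ ε * V := by
      rw [div_le_iff₀ hε] at hV'
      linarith
    have h3 : 6 * ((Q : ℝ) + 1) * V ≤ ε * Z * V := mul_le_mul_of_nonneg_right h1 hV0.le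
    have h4 : 6 * ((Q : ℝ) + 1) * Z ≤ ε * V * Z := mul_le_mul_of_nonneg_right h2 hZ0.le
    have h5 : ((Q : ℝ) + 1) * 1 ≤ ((Q : ℝ) + 1) * Z := mul_le_mul_of_nonneg_left hZ1 (by positivity)
    nlinarith
  have hGG : (Q : ℝ) * (Z + V + 1) + (Z + V + 1) ≤ ε / 2 * (Z * V) := by linarith
  have hPw : X * Y / (e : ℝ) ^ 2 / w ≤ 2 / (w * (e : ℝ) ^ 2) * (X * Y) := by
    have h1 : 0 ≤ X * Y / (e : ℝ) ^ 2 / w := by positivity
    have h2 : 2 / (w * (e : ℝ) ^ 2) * (X * Y) = 2 * (X * Y / (e : ℝ) ^ 2 / w) := by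
      field_simp
    linarith
  have hPw0 : 0 ≤ 2 / (w * (e : ℝ) ^ 2) * (X * Y) := by positivity
  have hQG : 0 ≤ (Q : ℝ) * (Z + V + 1) := by positivity
  have hRQ0 : 0 ≤ Z * V / Q := by positivity
  rw [abs_le] at hprod ⊢
  obtain ⟨hp1, hp2⟩ := hprod
  constructor
  · linarith
  · linarith

end Pool.Agent.AP
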